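import Pool.Agent.X99.SV.A

/-!
# Weak approximation of the points orthogonal to the classes: the number of exceptions
-/

set_option autoImplicit false

namespace Pool.Agent.X99.SV

open Finset Polynomial Filter Topology
open Pool.Agent.W313.BMX (Splits splits_swap splits_comm splits_mul_sq)
open Pool.Agent.TH204.HP
open Pool.Agent.Y714.RC

theorem wamp_few {r s : ℕ} (f : Fin s → ℤ[X]) (hf : ∀ j, 1 ≤ (f j).natDegree) (a c : Fin r → ℤ)
    (ha : ∀ i, a i ≠ 0) (hc : ∀ i, c i ≠ 0) (E : Fin r → Finset (Fin s)) (T : Finset Nat.Primes)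
    (hT : ∀ p : Nat.Primes, ((p : ℕ) = 2 ∨ (p : ℕ) ≤ ∑ j, (f j).natDegree ∨ (∃ j, ((p : ℕ) : ℤ) ∣ (f j).leadingCoeff) ∨
      ∃ i, ((p : ℕ) : ℤ) ∣ a i * c i) → p ∈ T) (N B U : ℕ) (hB : 1 ≤ B) :
    ∃ X₀ : ℕ, ∀ X : ℕ, X₀ ≤ X → ∃ Bad : Finset (Fin s → ℤ),
      (#Bad : ℝ) ≤ (∏ j, (X : ℝ) ^ (f j).natDegree) / Real.log X ^ U ∧
      ∀ k : Fin s → ℤ, (∀ j, |k j| ≤ ((B * X ^ (f j).natDegree : ℕ) : ℤ)) → k ∉ Bad → WAMP f a c E T N B X k := by
  classical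
  obtain ⟨N', B', hBB, hred⟩ := wamp_of f hf a c ha hc E T N B hB
  have hD : ∀ σ : ℤ, (σ = 1 ∨ σ = -1) → ∃ Y0 : ℕ, ∀ Y : ℕ, Y0 ≤ Y → ∃ Bad : Finset (Fin s → ℤ),
      (#Bad : ℝ) ≤ (∏ j, (Y : ℝ) ^ (f j).natDegree) / Real.log Y ^ (U + 1) ∧
      ∀ k : Fin s → ℤ, (∀ j, |k j| ≤ ((B * Y ^ (f j).natDegree : ℕ) : ℤ)) → k ∉ Bad → GoodP (sf σ f) a c E T N' B' Y k := by
    intro σ hσ
    have hσ0 : σ ≠ 0 := by rcases hσ with h | h <;> rw [h] <;> norm_num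
    have hσu : IsUnit σ := by rcases hσ with h | h <;> rw [h] <;> decide
    obtain ⟨Y0, h⟩ := thmC (sf σ f) (fun j => by rw [sf_deg σ hσ0]; exact hf j) a c ha hc E T (fun p hp => hT p (Or.inl hp))
      (by
        rintro p ⟨i, h | h⟩
        · exact hT p (Or.inr (Or.inr (Or.inr ⟨i, h.mul_right _⟩)))
        · exact hT p (Or.inr (Or.inr (Or.inr ⟨i, h.mul_left _⟩)))) (by
        intro p hp
        rw [sum_congr rfl (fun j _ => sf_deg σ hσ0 f j)] at hp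
        exact hT p (Or.inr (Or.inl hp))) (by
        rintro p ⟨j, h⟩
        rw [sf_lead σ hσ0] at h
        have h1 : ((p : ℕ) : ℤ) ∣ (f j).leadingCoeff := by
          rcases (Nat.prime_iff_prime_int.1 p.2).dvd_or_dvd h with h | h
          · exact h
          · exact absurd ((Nat.prime_iff_prime_int.1 p.2).dvd_of_dvd_pow h) (fun h2 => (Nat.prime_iff_prime_int.1 p.2).not_unit (isUnit_of_dvd_unit h2 hσu))
        exact hT p (Or.inr (Or.inr (Or.inl ⟨j, h1⟩)))) N' B' (U + 1) (hB.trans hBB)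
    refine ⟨Y0, fun Y hY => ?_⟩
    obtain ⟨Bad, h1, h2⟩ := h Y hY
    refine ⟨Bad, ?_, fun k hk hkB => ?_⟩
    · rw [prod_congr rfl (fun j _ => by rw [sf_deg σ hσ0])] at h1
      exact h1
    · intro v vr g1 g2 g3 g4 g5 g6 g7 g8
      refine h2 k (fun j => (hk j).trans ?_) hkB v vr ⟨g1, g2, g3, g4, g5, g6, g7, g8⟩
      rw [sf_deg σ hσ0]
      exact_mod_cast Nat.mul_le_mul_right _ hBB
  obtain ⟨Y1, h1⟩ := hD 1 (Or.inl rfl)
  obtain ⟨Y2, h2⟩ := hD (-1) (Or.inr rfl)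
  obtain ⟨Y3, h3⟩ := eventually_atTop.1 ((Real.tendsto_log_atTop.comp tendsto_natCast_atTop_atTop).eventually_ge_atTop (2 : ℝ))
  refine ⟨max 1 (max Y1 (max Y2 Y3)), fun X hX => ?_⟩
  have hX1 : 1 ≤ X := (le_max_left _ _).trans hX
  have hXa : Y1 ≤ X := ((le_max_left _ _).trans (le_max_right _ _)).trans hX
  have hXb : Y2 ≤ X := (((le_max_left _ _).trans (le_max_right _ _)).trans (le_max_right _ _)).trans hX
  have hXc : Y3 ≤ X := (((le_max_right _ _).trans (le_max_right _ _)).trans (le_max_right _ _)).trans hX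
  have hlog : (2 : ℝ) ≤ Real.log X := h3 X hXc
  obtain ⟨Bad1, b1, g1⟩ := h1 X hXa
  obtain ⟨Bad2, b2, g2⟩ := h2 X hXb
  refine ⟨Bad1 ∪ Bad2, ?_, fun k hk hkB => ?_⟩
  · obtain ⟨P, hP⟩ : ∃ P : ℝ, P = ∏ j, (X : ℝ) ^ (f j).natDegree := ⟨_, rfl⟩
    have hXr : (1 : ℝ) ≤ X := by exact_mod_cast hX1
    have hP0 : 0 < P := by rw [hP]; exact prod_pos fun j _ => by positivity
    rw [← hP] at b1 b2 ⊢
    have h4 : (#(Bad1 ∪ Bad2) : ℝ) ≤ #Bad1 + #Bad2 := by exact_mod_cast card_union_le _ _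
    have hlp : 0 < Real.log X ^ U := by positivity
    have h5 : P / Real.log X ^ (U + 1) ≤ P / Real.log X ^ U / 2 := by
      rw [pow_succ, ← div_div]
      exact div_le_div_of_nonneg_left (by positivity) (by norm_num) hlog
    linarith
  · rw [mem_union, not_or] at hkB
    exact hred X hX1 k (g1 k hk hkB.1) (g2 k hk hkB.2)

end Pool.Agent.X99.SV
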